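import Pool.Agent.W2helper92.SD.Fam

/-!
# Conics in the plane
-/

set_option autoImplicit false

open MvPolynomial

namespace Pool.Agent.W2helper92.SD

open Pool.Agent.W2helper9.SD Pool.Agent.Helper819.Dyn

/-- the quadratic form with given coefficients -/
noncomputable def Q {R : Type} [CommRing R] (u : Fin 6 → R) : MvPolynomial (Fin 3) R :=
  C (u 0) * (X 2 * X 2) + C (u 1) * (X 1 * X 2) + C (u 2) * (X 1 * X 1) +
    C (u 3) * (X 0 * X 2) + C (u 4) * (X 0 * X 0) + C (u 5) * (X 0 * X 1)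

section
variable {R S : Type} [CommRing R] [CommRing S]

theorem hom_mon (c : R) (i j : Fin 3) :
    (C c * (X i * X j) : MvPolynomial (Fin 3) R).IsHomogeneous 2 := by
  have h := (isHomogeneous_C (Fin 3) c).mul ((isHomogeneous_X R i).mul (isHomogeneous_X R j))
  exact h

theorem hom_Q (u : Fin 6 → R) : (Q u).IsHomogeneous 2 :=
  (((((hom_mon _ _ _).add (hom_mon _ _ _)).add (hom_mon _ _ _)).add (hom_mon _ _ _)).add
    (hom_mon _ _ _)).add (hom_mon _ _ _)

theorem map_Q (f : R →+* S) (u : Fin 6 → R) : map f (Q u) = Q fun k => f (u k) := by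
  simp only [Q, map_add, map_mul, map_C, map_X]

theorem eval_Q (f : R →+* S) (x : Fin 3 → S) (u : Fin 6 → R) : eval₂ f x (Q u) =
    f (u 0) * (x 2 * x 2) + f (u 1) * (x 1 * x 2) + f (u 2) * (x 1 * x 1) +
    f (u 3) * (x 0 * x 2) + f (u 4) * (x 0 * x 0) + f (u 5) * (x 0 * x 1) := by
  simp only [Q, eval₂_add, eval₂_mul, eval₂_C, eval₂_X]

theorem add_Q (u v : Fin 6 → R) : Q u + Q v = Q (u + v) := by
  simp only [Q, Pi.add_apply, C_add]
  ring

theorem smul_Q (c : R) (u : Fin 6 → R) : C c * Q u = Q (fun k => c * u k) := by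
  simp only [Q, C_mul]
  ring

end

/-- the tuple of the quadratic forms with given coefficients -/
noncomputable def TQ {R : Type} [CommRing R] (u v w : Fin 6 → R) : Tuple R 2 := ![Q u, Q v, Q w]

/-- the coefficients of `x y` -/
def e5 {R : Type} [CommRing R] : Fin 6 → R := fun k => if k = 5 then 1 else 0

/-- the generic tuple -/
noncomputable def gen : Tuple (MvPolynomial (Fin 4 ⊕ Fin 4) Z2) 2 :=
  TQ e5
    (![1, X (Sum.inl 0), X (Sum.inl 1), X (Sum.inr 0), X (Sum.inr 1), 0] :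
      Fin 6 → MvPolynomial (Fin 4 ⊕ Fin 4) Z2)
    (![0, X (Sum.inl 2), X (Sum.inl 3), X (Sum.inr 2), X (Sum.inr 3), 0] :
      Fin 6 → MvPolynomial (Fin 4 ⊕ Fin 4) Z2)

theorem map_TQ {R S : Type} [CommRing R] [CommRing S] (f : R →+* S) (u v w : Fin 6 → R) :
    (fun i => map f (TQ u v w i) : Tuple S 2) =
      TQ (fun k => f (u k)) (fun k => f (v k)) fun k => f (w k) := by
  funext i
  fin_cases i <;> exact map_Q f _

theorem hom_TQ {R : Type} [CommRing R] (u v w : Fin 6 → R) (i : Fin 3) :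
    (TQ u v w i).IsHomogeneous 2 := by
  fin_cases i <;> exact hom_Q _

theorem good {a b : Fin 4 → Z2} (ha : Cop2 a) (hb : Cop2 b) :
    IntGood 2 2 (TQ e5 ![1, a 0, a 1, b 0, b 1, 0] ![0, a 2, a 3, b 2, b 3, 0]) := by
  refine ⟨hom_TQ _ _ _, fun κ _ _ φ x hx => ?_⟩
  have h0 : eval₂ φ x (Q e5) = 0 := hx 0
  have h1 : eval₂ φ x (Q ![1, a 0, a 1, b 0, b 1, 0]) = 0 := hx 1
  have h2 : eval₂ φ x (Q ![0, a 2, a 3, b 2, b 3, 0]) = 0 := hx 2
  rw [eval_Q] at h0 h1 h2
  simp [e5] at h0 h1 h2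
  have key : x 0 = 0 ∧ x 1 = 0 ∧ x 2 = 0 := by
    rcases h0 with h | h
    · rw [h] at h1 h2
      obtain ⟨h3, h4⟩ := ha κ φ (x 1) (x 2) (by linear_combination h1) (by linear_combination h2)
      exact ⟨h, h3, h4⟩
    · rw [h] at h1 h2
      obtain ⟨h3, h4⟩ := hb κ φ (x 0) (x 2) (by linear_combination h1) (by linear_combination h2)
      exact ⟨h3, h, h4⟩
  funext i
  fin_cases i
  · exact key.1
  · exact key.2.1
  · exact key.2.2

theorem base (hD : P_D2) (a b : Fin 4 → Kb) :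
    TQ e5 ![1, a 0, a 1, b 0, b 1, 0] ![0, a 2, a 3, b 2, b 3, 0] ∈ Zcl 2 2 := by
  have e : (fun i => map (eval₂Hom io (Sum.elim a b)) (gen i) : Tuple Kb 2) =
      TQ e5 ![1, a 0, a 1, b 0, b 1, 0] ![0, a 2, a 3, b 2, b 3, 0] := by
    funext i
    fin_cases i
    · refine (map_Q _ _).trans ?_
      show Q _ = Q _
      congr 1
      funext k
      fin_cases k <;> simp [e5]
    · refine (map_Q _ _).trans ?_
      show Q _ = Q _
      congr 1
      funext k
      fin_cases k <;> simp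
    · refine (map_Q _ _).trans ?_
      show Q _ = Q _
      congr 1
      funext k
      fin_cases k <;> simp
  rw [← e]
  refine mem_of_dense gen hD hD (hom_TQ _ _ _) (fun a ha b hb => ?_) a b
  have e' : (fun i => map (eval (Sum.elim a b)) (gen i) : Tuple Z2 2) =
      TQ e5 ![1, a 0, a 1, b 0, b 1, 0] ![0, a 2, a 3, b 2, b 3, 0] := by
    funext i
    fin_cases i
    · refine (map_Q _ _).trans ?_
      show Q _ = Q _
      congr 1
      funext k
      fin_cases k <;> simp [e5]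
    · refine (map_Q _ _).trans ?_
      show Q _ = Q _
      congr 1
      funext k
      fin_cases k <;> simp
    · refine (map_Q _ _).trans ?_
      show Q _ = Q _
      congr 1
      funext k
      fin_cases k <;> simp
  rw [e']
  exact good ha hb

theorem step1 (hC : P_CURVE) (hI : P_INV) (hD : P_D2) (u v : Fin 6 → Kb) (hu : u 0 ≠ 0) :
    TQ e5 u v ∈ Zcl 2 2 := by
  have h1 := inv_left hC hI !![1, 0, 0; u 5, u 0, 0; v 5, v 0, 1]
    (by simp [Matrix.det_fin_three, hu])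
    (base hD ![u 1 / u 0, u 2 / u 0, v 1 - v 0 * (u 1 / u 0), v 2 - v 0 * (u 2 / u 0)]
      ![u 3 / u 0, u 4 / u 0, v 3 - v 0 * (u 3 / u 0), v 4 - v 0 * (u 4 / u 0)])
  convert h1 using 1
  funext i
  rw [Fin.sum_univ_three]
  show _ = C _ * Q _ + C _ * Q _ + C _ * Q _
  rw [smul_Q, smul_Q, smul_Q, add_Q, add_Q]
  fin_cases i
  · show Q _ = Q _
    congr 1
    funext k
    fin_cases k <;> simp [e5]
  · show Q _ = Q _
    congr 1
    funext k
    fin_cases k <;> simp [e5] <;> field_simp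
  · show Q _ = Q _
    congr 1
    funext k
    fin_cases k <;> simp [e5]

/-- **B22.** -/
theorem p_b22 : P_B22 := by
  intro hC hI hD F1 F2 h1 h2
  have hq : ∀ {F : MvPolynomial (Fin 3) Kb}, F.IsHomogeneous 2 → ∃ u : Fin 6 → Kb, F = Q u := by
    intro F hF
    obtain ⟨q, hq⟩ := quad hF
    refine ⟨![q 2 2, q 1 2 + q 2 1, q 1 1, q 0 2 + q 2 0, q 0 0, q 0 1 + q 1 0], ?_⟩
    rw [hq]
    simp only [Q, Fin.sum_univ_three]
    simp
    ring
  obtain ⟨u, rfl⟩ := hq h1
  obtain ⟨v, rfl⟩ := hq h2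
  have h0 : (X 0 * X 1 : MvPolynomial (Fin 3) Kb) = Q e5 := by
    simp [Q, e5]
  rw [h0]
  show TQ e5 u v ∈ Zcl 2 2
  refine line hC _ (TQ 0 ![1, 0, 0, 0, 0, 0] 0) (hom_TQ _ _ _) (hom_TQ _ _ _) ?_
  refine (Set.finite_singleton (-(u 0))).infinite_compl.mono fun t ht => ?_
  have ht1 : u 0 + t ≠ 0 := fun h => ht (by
    rw [Set.mem_singleton_iff]
    linear_combination h)
  have h3 := step1 hC hI hD (u + fun k => t * ![1, 0, 0, 0, 0, 0] k) v (by simpa using ht1)
  show (fun i => TQ e5 u v i + C t * TQ 0 ![1, 0, 0, 0, 0, 0] 0 i : Tuple Kb 2) ∈ Zcl 2 2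
  convert h3 using 1
  funext i
  fin_cases i
  · show Q e5 + C t * Q 0 = Q e5
    rw [smul_Q, add_Q]
    congr 1
    funext k
    simp
  · show Q u + C t * Q _ = Q _
    rw [smul_Q, add_Q]
  · show Q v + C t * Q 0 = Q v
    rw [smul_Q, add_Q]
    congr 1
    funext k
    simp

end Pool.Agent.W2helper92.SD
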