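import Pool.Agent.W2helper92.SD.Fam

/-!
# A dense family of pairs of binary quadratic forms
-/

set_option autoImplicit false

open MvPolynomial

namespace Pool.Agent.W2helper92.SD

open Pool.Agent.W2helper9.SD Pool.Agent.Helper819.Dyn

theorem isUnit_two_Z2 : IsUnit (2 : Z2) := by
  have h := IsLocalization.Away.algebraMap_isUnit (S := Z2) (2 : ℤ)
  rwa [map_ofNat] at h

theorem two_ne {κ : Type} [Field κ] (φ : Z2 →+* κ) : (2 : κ) ≠ 0 := by
  have h := isUnit_two_Z2.map φ
  rw [map_ofNat] at h
  exact h.ne_zero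

theorem cop2_fam (v w : ℤ) (k l : ℕ) :
    Cop2 ![(v : Z2) + w, (v : Z2) * w + 2 ^ k, 2 ^ l, 2 ^ l * (v : Z2)] := by
  intro κ _ _ φ s t h1 h2
  have hφ : φ 2 = 2 := map_ofNat φ 2
  simp [hφ] at h1 h2
  have h20 := two_ne φ
  have h3 : (2 : κ) ^ l * (s * (t + v * s)) = 0 := by linear_combination h2
  have h4 := (mul_eq_zero.1 h3).resolve_left (pow_ne_zero _ h20)
  rcases mul_eq_zero.1 h4 with h5 | h5
  · rw [h5] at h1
    refine ⟨h5, ?_⟩
    have h6 : t ^ 2 = 0 := by linear_combination h1
    exact pow_eq_zero_iff (two_ne_zero) |>.1 h6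
  · have h6 : (2 : κ) ^ k * s ^ 2 = 0 := by linear_combination h1 - (t + w * s) * h5
    have h7 := (mul_eq_zero.1 h6).resolve_left (pow_ne_zero _ h20)
    have h8 : s = 0 := pow_eq_zero_iff (two_ne_zero) |>.1 h7
    refine ⟨h8, ?_⟩
    rw [h8] at h5
    linear_combination h5

/-- **D2.** -/
theorem p_d2 : P_D2 := by
  intro p hp
  have hio : io 2 = 2 := map_ofNat io 2
  let Φ : Fin 4 → MvPolynomial (Fin 4) Kb := ![X 0 + X 1, X 0 * X 1 + X 2, X 3, X 3 * X 0]
  have h1 : bind₁ Φ p = 0 := by
    apply MvPolynomial.funext_set ![Set.range ((↑) : ℤ → Kb), Set.range ((↑) : ℤ → Kb),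
      Set.range (fun k : ℕ => (2 : Kb) ^ k), Set.range (fun k : ℕ => (2 : Kb) ^ k)]
    · have hz : (Set.range ((↑) : ℤ → Kb)).Infinite :=
        Set.infinite_range_of_injective Int.cast_injective
      have ht : (Set.range (fun k : ℕ => (2 : Kb) ^ k)).Infinite := by
        apply Set.infinite_range_of_injective
        intro a b hab
        have h2 : ((2 ^ a : ℕ) : Kb) = ((2 ^ b : ℕ) : Kb) := by
          push_cast
          exact hab
        exact Nat.pow_right_injective le_rfl (Nat.cast_injective h2)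
      intro i
      fin_cases i
      · exact hz
      · exact hz
      · exact ht
      · exact ht
    · intro x hx
      obtain ⟨v, hv⟩ := hx 0 trivial
      obtain ⟨w, hw⟩ := hx 1 trivial
      obtain ⟨k, hk⟩ := hx 2 trivial
      obtain ⟨l, hl⟩ := hx 3 trivial
      have hk' : (2 : Kb) ^ k = x 2 := hk
      have hl' : (2 : Kb) ^ l = x 3 := hl
      have h3 := hp _ (cop2_fam v w k l)
      rw [eval_bind, map_zero, ← h3]
      congr 2
      funext i
      fin_cases i
      · simp [Φ, ← hv, ← hw]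
      · simp [Φ, ← hv, ← hw, ← hk', hio]
      · simp [Φ, ← hl', hio]
      · simp [Φ, ← hl', ← hv, hio]
  have h2 : p * X 2 = 0 := by
    apply MvPolynomial.funext
    intro x
    rw [map_mul, eval_X, map_zero]
    by_cases hx : x 2 = 0
    · rw [hx, mul_zero]
    · have h3 : eval ![x 3 / x 2, x 0 - x 3 / x 2, x 1 - x 3 / x 2 * (x 0 - x 3 / x 2), x 2]
          (bind₁ Φ p) = eval x p := by
        rw [eval_bind]
        congr 2
        funext i
        fin_cases i
        · simp [Φ]
        · simp [Φ]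
        · simp [Φ]
        · simp [Φ]
          field_simp
      rw [← h3, h1, map_zero, zero_mul]
  exact (mul_eq_zero.1 h2).resolve_right (X_ne_zero 2)

end Pool.Agent.W2helper92.SD
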