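import Pool.Agent.W2helper9.SD.Stm

/-!
# Families of tuples
-/

set_option autoImplicit false

open MvPolynomial

namespace Pool.Agent.W2helper92.SD

open Pool.Agent.W2helper9.SD Pool.Agent.Helper819.Dyn

theorem eval_bind {K : Type} [CommRing K] {σ τ : Type} (a : σ → K) (f : τ → MvPolynomial σ K)
    (p : MvPolynomial τ K) : eval a (bind₁ f p) = eval (fun q => eval a (f q)) p :=
  eval₂Hom_bind₁ (RingHom.id K) a f p

/-- A polynomial in the coefficients of a polynomial family is a polynomial in the parameters. -/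
theorem family {σ : Type} {N : ℕ} (G : Tuple (MvPolynomial σ Kb) N)
    (p : MvPolynomial (Fin (N + 1) × (Fin (N + 1) →₀ ℕ)) Kb) :
    ∃ P : MvPolynomial σ Kb, ∀ a : σ → Kb,
      eval a P = eval (co fun i => map (eval a) (G i)) p := by
  refine ⟨bind₁ (fun q => coeff q.2 (G q.1)) p, fun a => ?_⟩
  have h1 : (co fun i => map (eval a) (G i)) = fun q => eval a (coeff q.2 (G q.1)) := by
    funext q
    simp only [co, coeff_map]
  rw [h1, eval_bind]

/-- Products of dense sets. -/
theorem prod_dense {σ τ : Type} {E : Set (σ → Z2)} {E' : Set (τ → Z2)} (hE : ZDense E)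
    (hE' : ZDense E') (P : MvPolynomial (σ ⊕ τ) Kb)
    (h : ∀ a ∈ E, ∀ b ∈ E', eval (Sum.elim (fun i => io (a i)) fun j => io (b j)) P = 0)
    (a : σ → Kb) (b : τ → Kb) : eval (Sum.elim a b) P = 0 := by
  have h1 : ∀ (a : σ → Kb) (b : τ → Kb),
      eval a (bind₁ (Sum.elim X fun j => C (b j)) P) = eval (Sum.elim a b) P := by
    intro a b
    rw [eval_bind]
    congr 2
    funext x
    rcases x with i | j
    · simp
    · simp
  have h2 : ∀ (a : σ → Kb) (b : τ → Kb),
      eval b (bind₁ (Sum.elim (fun i => C (a i)) X) P) = eval (Sum.elim a b) P := by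
    intro a b
    rw [eval_bind]
    congr 2
    funext x
    rcases x with i | j
    · simp
    · simp
  have h3 : ∀ (a : σ → Kb), ∀ b ∈ E', eval (Sum.elim a fun j => io (b j)) P = 0 := by
    intro a b hb
    rw [← h1, hE (bind₁ (Sum.elim X fun j => C (io (b j))) P) fun a ha => by
      rw [h1]
      exact h a ha b hb, map_zero]
  rw [← h2, hE' (bind₁ (Sum.elim (fun i => C (a i)) X) P) fun b hb => by
    rw [h2]
    exact h3 a b hb, map_zero]

/-- A family over `ℤ[1/2]` with two dense sets of parameters for which the tuple is good. -/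
theorem mem_of_dense {σ τ : Type} {N d : ℕ} (G : Tuple (MvPolynomial (σ ⊕ τ) Z2) N)
    {E : Set (σ → Z2)} {E' : Set (τ → Z2)} (hE : ZDense E) (hE' : ZDense E')
    (hG : ∀ i, (G i).IsHomogeneous d)
    (h : ∀ a ∈ E, ∀ b ∈ E', IntGood N d fun i => map (eval (Sum.elim a b)) (G i))
    (a : σ → Kb) (b : τ → Kb) :
    (fun i => map (eval₂Hom io (Sum.elim a b)) (G i) : Tuple Kb N) ∈ Zcl N d := by
  refine ⟨fun i => (hG i).map _, fun p hp => ?_⟩
  obtain ⟨P, hP⟩ := family (fun i => map (map io) (G i)) p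
  have h1 : ∀ c : σ ⊕ τ → Kb, ∀ i, map (eval c) (map (map io) (G i)) =
      map (eval₂Hom io c) (G i) := by
    intro c i
    have h0 : (eval c).comp (map io) = eval₂Hom io c := by
      apply ringHom_ext
      · intro r
        simp
      · intro r
        simp
    rw [map_map, h0]
  have h2 : ∀ c : σ ⊕ τ → Kb, eval c P = eval (co fun i => map (eval₂Hom io c) (G i)) p := by
    intro c
    rw [hP]
    simp only [h1]
  rw [← h2]
  refine prod_dense hE hE' P (fun a ha b hb => ?_) a b
  rw [h2]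
  have h3 := hp _ (h a ha b hb)
  have h0 : io.comp (eval (Sum.elim a b)) =
      eval₂Hom io (Sum.elim (fun i => io (a i)) fun j => io (b j)) := by
    apply ringHom_ext
    · intro r
      simp
    · intro x
      rcases x with x | x <;> simp
  simp only [map_map, h0] at h3
  exact h3

/-- A line with infinitely many points in the closure. -/
theorem line (hC : P_CURVE) {N d : ℕ} (F E : Tuple Kb N) (hF : ∀ i, (F i).IsHomogeneous d)
    (hE : ∀ i, (E i).IsHomogeneous d)
    (h : {t : Kb | (fun i => F i + C t * E i : Tuple Kb N) ∈ Zcl N d}.Infinite) :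
    F ∈ Zcl N d := by
  have h1 := hC N d (fun t i => F i + C t * E i) 1 (fun t i => (hF i).add ?_) (fun q => ?_) ?_ 0 ?_
  · have h2 : (fun i => F i + C (0 : Kb) * E i : Tuple Kb N) = F := by
      funext i
      rw [C_0, zero_mul, add_zero]
    rwa [h2] at h1
  · have h2 := (isHomogeneous_C (Fin (N + 1)) t).mul (hE i)
    rwa [zero_add] at h2
  · refine ⟨Polynomial.C (coeff q.2 (F q.1)) + Polynomial.X * Polynomial.C (coeff q.2 (E q.1)), 0,
      fun t _ => ?_⟩
    rw [pow_zero, mul_one, Polynomial.eval_add, Polynomial.eval_mul, Polynomial.eval_C,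
      Polynomial.eval_X, Polynomial.eval_C]
    show coeff q.2 (F q.1 + C t * E q.1) = _
    rw [coeff_add, coeff_C_mul]
  · refine h.mono fun t ht => ⟨by simp, ht⟩
  · simp

theorem lin_one {N : ℕ} (F : MvPolynomial (Fin (N + 1)) Kb) : lin 1 F = F := by
  unfold lin
  have h1 : (fun l : Fin (N + 1) => ∑ m, C ((1 : Matrix (Fin (N + 1)) (Fin (N + 1)) Kb) l m) * X m) =
      (X : Fin (N + 1) → MvPolynomial (Fin (N + 1)) Kb) := by
    funext l
    rw [Finset.sum_eq_single l]
    · rw [Matrix.one_apply_eq, C_1, one_mul]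
    · intro m _ hm
      rw [Matrix.one_apply_ne (Ne.symm hm), C_0, zero_mul]
    · intro h
      exact absurd (Finset.mem_univ l) h
  rw [h1, bind₁_X_left]
  rfl

/-- Invariance under linear combinations of the forms. -/
theorem inv_left (hC : P_CURVE) (hI : P_INV) {N d : ℕ} (A : Matrix (Fin (N + 1)) (Fin (N + 1)) Kb)
    (hA : A.det ≠ 0) {F : Tuple Kb N} (hF : F ∈ Zcl N d) :
    (fun i => ∑ j, C (A i j) * F j : Tuple Kb N) ∈ Zcl N d := by
  have h1 := hI hC N d A 1 hA (by rw [Matrix.det_one]; exact one_ne_zero) F hF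
  simpa only [lin_one] using h1

/-- Quadratic forms. -/
theorem quad {n : ℕ} {F : MvPolynomial (Fin n) Kb} (h : F.IsHomogeneous 2) :
    ∃ q : Fin n → Fin n → Kb, F = ∑ i, ∑ j, C (q i j) * (X i * X j) := by
  have h1 : ∀ i, ∃ c : Fin n → Kb, pderiv i F = ∑ j, C (c j) * X j := by
    intro i
    have h2 : (pderiv i F).IsHomogeneous 1 := h.pderiv
    have h3 : ∀ j, ∃ c : Kb, pderiv j (pderiv i F) = C c := by
      intro j
      have h4 : (pderiv j (pderiv i F)).IsHomogeneous 0 := h2.pderiv
      exact ⟨_, (totalDegree_eq_zero_iff_eq_C.1 (Nat.le_zero.1 h4.totalDegree_le))⟩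
    choose c hc using h3
    refine ⟨c, ?_⟩
    have h5 := h2.sum_X_mul_pderiv
    rw [one_smul] at h5
    rw [← h5]
    refine Finset.sum_congr rfl fun j _ => ?_
    rw [hc, mul_comm]
  choose c hc using h1
  refine ⟨fun i j => 2⁻¹ * c i j, ?_⟩
  have h5 := h.sum_X_mul_pderiv
  have h6 : (C (2⁻¹ : Kb) : MvPolynomial (Fin n) Kb) * (2 • F) = F := by
    rw [two_nsmul, ← two_mul, ← mul_assoc]
    have h7 : (C (2⁻¹ : Kb) : MvPolynomial (Fin n) Kb) * 2 = 1 := by
      rw [show (2 : MvPolynomial (Fin n) Kb) = C 2 from (map_ofNat C 2).symm, ← C_mul,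
        inv_mul_cancel₀ two_ne_zero, C_1]
    rw [h7, one_mul]
  rw [← h6, ← h5, Finset.mul_sum]
  refine Finset.sum_congr rfl fun i _ => ?_
  rw [hc, Finset.mul_sum, Finset.mul_sum]
  refine Finset.sum_congr rfl fun j _ => ?_
  rw [C_mul]
  ring

end Pool.Agent.W2helper92.SD
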